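import Pool.Agent.Helper28.BPack.Main

/-!
# Counting independent sequences of atoms over a flat

The atoms are taken from a finite family `c : ι → L` (repetitions allowed).
-/

set_option autoImplicit false
set_option linter.unusedSectionVars false

namespace Pool.Agent.Helper50.Sparse

open Pool.Agent.Helper28.BPack Finset

variable {L : Type} [Lattice L] [BoundedOrder L] [Finite L] [IsUpperModularLattice L]
variable {ι : Type} [Fintype ι]

/-- the join of a sequence -/
def jn (c : ι → L) {m : ℕ} (F : L) (a : Fin m → ι) : L := F ⊔ univ.sup (fun j => c (a j))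

theorem jn_cons (c : ι → L) {m : ℕ} (F : L) (a0 : ι) (a : Fin m → ι) :
    jn c F (Fin.cons a0 a : Fin (m + 1) → ι) = jn c (F ⊔ c a0) a := by
  unfold jn
  rw [Fin.univ_succ, Finset.sup_cons, Finset.sup_map]
  have h1 : (fun j => c ((Fin.cons a0 a : Fin (m + 1) → ι) j)) ∘
      ⇑(⟨Fin.succ, Fin.succ_injective m⟩ : Fin m ↪ Fin (m + 1)) = fun j => c (a j) := by
    funext j
    simp
  rw [h1, Fin.cons_zero, sup_assoc]

open Classical in
/-- the independent sequences of length `m` over `F` -/
noncomputable def good (c : ι → L) (m : ℕ) (F : L) : Finset (Fin m → ι) :=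
  univ.filter (fun a => rk (jn c F a) = rk F + m)

theorem mem_good {c : ι → L} {m : ℕ} {F : L} {a : Fin m → ι} :
    a ∈ good c m F ↔ rk (jn c F a) = rk F + m := by
  classical
  unfold good
  simp

open Classical in
theorem card_good (c : ι → L) (hc : ∀ j, IsAtom (c j)) (D : ℕ) (f : L)
    (hD : ∀ x : L, f ≤ x → x ≠ ⊤ → D ≤ (univ.filter (fun j : ι => ¬ c j ≤ x)).card) :
    ∀ (m : ℕ) (F : L), f ≤ F → rk F + m ≤ rk (⊤ : L) → D ^ m ≤ (good c m F).card := by
  intro m
  induction m with
  | zero =>
    intro F _ _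
    have h1 : (Fin.elim0 : Fin 0 → ι) ∈ good c 0 F := by
      rw [mem_good]
      unfold jn
      simp
    have h2 : 0 < (good c 0 F).card := Finset.card_pos.mpr ⟨_, h1⟩
    simpa using h2
  | succ m ih =>
    intro F hfF hF
    have hFt : F ≠ ⊤ := by
      intro h
      rw [h] at hF
      omega
    set A : Finset ι := univ.filter (fun j : ι => ¬ c j ≤ F) with hA
    let T : Finset (Σ _ : ι, (Fin m → ι)) := A.sigma (fun a0 => good c m (F ⊔ c a0))
    have h1 : T.card ≤ (good c (m + 1) F).card := by
      apply Finset.card_le_card_of_injOn (fun x => (Fin.cons x.1 x.2 : Fin (m + 1) → ι))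
      · rintro ⟨a0, a⟩ hx
        have hx' : a0 ∈ A ∧ a ∈ good c m (F ⊔ c a0) := Finset.mem_sigma.mp hx
        obtain ⟨h2, h3⟩ := hx'
        rw [hA, Finset.mem_filter] at h2
        rw [mem_good] at h3
        change (Fin.cons a0 a : Fin (m + 1) → ι) ∈ (good c (m + 1) F : Set _)
        rw [Finset.mem_coe, mem_good, jn_cons, h3, rk_sup_atom (hc a0) h2.2]
        ring
      · rintro ⟨a0, a⟩ _ ⟨b0, b⟩ _ h
        have h2 : (Fin.cons a0 a : Fin (m + 1) → ι) = Fin.cons b0 b := h
        have h3 := Fin.cons_injective2 h2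
        rw [h3.1, h3.2]
    have h2 : T.card = ∑ a0 ∈ A, (good c m (F ⊔ c a0)).card := Finset.card_sigma _ _
    have h3 : ∑ a0 ∈ A, D ^ m ≤ ∑ a0 ∈ A, (good c m (F ⊔ c a0)).card := by
      apply Finset.sum_le_sum
      intro a0 ha0
      rw [hA, Finset.mem_filter] at ha0
      apply ih _ (hfF.trans le_sup_left)
      rw [rk_sup_atom (hc a0) ha0.2]
      omega
    rw [Finset.sum_const, smul_eq_mul] at h3
    have h4 : D ≤ A.card := hD F hfF hFt
    calc D ^ (m + 1) = D * D ^ m := by ring
      _ ≤ A.card * D ^ m := Nat.mul_le_mul_right _ h4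
      _ ≤ _ := h3
      _ = T.card := h2.symm
      _ ≤ _ := h1

open Classical in
/-- the number of sequences with prescribed positions below `q` -/
theorem card_below (c : ι → L) (m : ℕ) (q : L) (S : Finset (Fin m)) :
    (univ.filter (fun a : Fin m → ι => ∀ j ∈ S, c (a j) ≤ q)).card =
      (univ.filter (fun j : ι => c j ≤ q)).card ^ S.card *
        (Fintype.card ι) ^ (m - S.card) := by
  have h1 : univ.filter (fun a : Fin m → ι => ∀ j ∈ S, c (a j) ≤ q) =
      Fintype.piFinset (fun j => if j ∈ S then univ.filter (fun j : ι => c j ≤ q) else univ) := by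
    ext a
    rw [Finset.mem_filter, Fintype.mem_piFinset]
    constructor
    · rintro ⟨_, h⟩ j
      by_cases hj : j ∈ S
      · rw [if_pos hj, Finset.mem_filter]
        exact ⟨Finset.mem_univ _, h j hj⟩
      · rw [if_neg hj]
        exact Finset.mem_univ _
    · intro h
      refine ⟨Finset.mem_univ _, fun j hj => ?_⟩
      have h2 := h j
      rw [if_pos hj, Finset.mem_filter] at h2
      exact h2.2
  rw [h1, Fintype.card_piFinset]
  have h2 : ∀ j : Fin m, (if j ∈ S then univ.filter (fun j : ι => c j ≤ q) else univ).card =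
      if j ∈ S then (univ.filter (fun j : ι => c j ≤ q)).card else Fintype.card ι := by
    intro j
    split_ifs
    · rfl
    · exact Finset.card_univ
  rw [Finset.prod_congr rfl (fun j _ => h2 j), Finset.prod_ite, Finset.prod_const, Finset.prod_const]
  congr 2
  · rw [Finset.filter_mem_eq_inter, Finset.univ_inter]
  · have h3 : univ.filter (fun j : Fin m => ¬ j ∈ S) = Sᶜ := by
      ext j
      simp
    rw [h3, Finset.card_compl, Fintype.card_fin]

open Classical in
/-- the number of independent sequences over `F` some part of which spans `q` -/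
theorem card_hit (c : ι → L) (hc : ∀ j, IsAtom (c j)) (m : ℕ) (F q : L) :
    ((good c m F).filter (fun a => ∃ S : Finset (Fin m), S.Nonempty ∧
      F ⊔ S.sup (fun j => c (a j)) = q)).card ≤
      m.choose (rk q - rk F) * ((univ.filter (fun j : ι => c j ≤ q)).card ^ (rk q - rk F) *
        (Fintype.card ι) ^ (m - (rk q - rk F))) := by
  have h1 : ((good c m F).filter (fun a => ∃ S : Finset (Fin m), S.Nonempty ∧
      F ⊔ S.sup (fun j => c (a j)) = q)) ⊆
      (univ.powersetCard (rk q - rk F)).biUnion
        (fun S : Finset (Fin m) => univ.filter (fun a : Fin m → ι => ∀ j ∈ S, c (a j) ≤ q)) := by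
    intro a ha
    rw [Finset.mem_filter, mem_good] at ha
    obtain ⟨h2, S, _, hS⟩ := ha
    have hg : (⟨F, m, fun j => c (a j)⟩ : Pc L).Good :=
      good_of_rk (p := ⟨F, m, fun j => c (a j)⟩) (fun j => hc (a j)) h2
    have h3 := hg.rk_val S
    have h4 : rk q = rk F + S.card := by
      rw [← hS]
      exact h3
    rw [Finset.mem_biUnion]
    refine ⟨S, ?_, ?_⟩
    · rw [Finset.mem_powersetCard]
      exact ⟨Finset.subset_univ _, by omega⟩
    · rw [Finset.mem_filter]
      refine ⟨Finset.mem_univ _, fun j hj => ?_⟩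
      rw [← hS]
      exact (Finset.le_sup (f := fun j => c (a j)) hj).trans le_sup_right
  refine (Finset.card_le_card h1).trans ?_
  refine Finset.card_biUnion_le.trans ?_
  have h2 : ∀ S ∈ (univ : Finset (Fin m)).powersetCard (rk q - rk F),
      (univ.filter (fun a : Fin m → ι => ∀ j ∈ S, c (a j) ≤ q)).card =
      (univ.filter (fun j : ι => c j ≤ q)).card ^ (rk q - rk F) *
        (Fintype.card ι) ^ (m - (rk q - rk F)) := by
    intro S hS
    rw [Finset.mem_powersetCard] at hS
    rw [card_below, hS.2]
  rw [Finset.sum_congr rfl h2, Finset.sum_const, Finset.card_powersetCard, Finset.card_univ,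
    Fintype.card_fin, smul_eq_mul]

end Pool.Agent.Helper50.Sparse
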