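import Pool.Agent.Helper28.BPack.Main

/-!
# Boolean packings from a family of boxes whose elements above the bottoms are all different
-/

set_option autoImplicit false
set_option linter.unusedSectionVars false

namespace Pool.Agent.Helper50.Sparse

open Pool.Agent.Helper28.BPack

/-- the kernel of a relation which goes up -/
theorem exists_kernel {L : Type} [PartialOrder L] [Finite L] (R : L → L → Prop)
    (hR : ∀ x y, R x y → x < y) :
    ∃ K : L → Prop, ∀ y, K y ↔ ¬ ∃ x, K x ∧ R x y := by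
  have hwf : WellFounded (fun x y : L => x < y) := wellFounded_lt
  let G : (y : L) → ((x : L) → x < y → Prop) → Prop :=
    fun y ih => ¬ ∃ x, ∃ h : x < y, ih x h ∧ R x y
  refine ⟨hwf.fix G, fun y => ?_⟩
  rw [hwf.fix_eq G y]
  constructor
  · rintro h ⟨x, hx, hxy⟩
    exact h ⟨x, hR x y hxy, hx, hxy⟩
  · rintro h ⟨x, _, hx, hxy⟩
    exact h ⟨x, hx, hxy⟩

variable {L : Type} [Lattice L] [BoundedOrder L] [Finite L] [IsUpperModularLattice L]

/-- If every element `F` of small rank above `f` carries a box with bottom `F` and top of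
complementary rank in the interval from `f` to the top, and the elements of the boxes other than
the bottoms are all different, then there is a Boolean packing of that interval. -/
theorem hasPack_of_family (f : L) (p : L → Pc L)
    (hg : ∀ F, f ≤ F → 2 * rk F < rk (⊤ : L) + rk f → (p F).Good)
    (hx : ∀ F, f ≤ F → 2 * rk F < rk (⊤ : L) + rk f → (p F).x = F)
    (hn : ∀ F, f ≤ F → 2 * rk F < rk (⊤ : L) + rk f →
      (p F).n = rk (⊤ : L) + rk f - 2 * rk F)
    (hd : ∀ F F', f ≤ F → f ≤ F' → 2 * rk F < rk (⊤ : L) + rk f →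
      2 * rk F' < rk (⊤ : L) + rk f → F ≠ F' →
      ∀ B B', B.Nonempty → B'.Nonempty → (p F).val B ≠ (p F').val B') :
    HasPack f := by
  classical
  obtain ⟨K, hK⟩ := exists_kernel
    (fun x y : L => (f ≤ x ∧ 2 * rk x < rk (⊤ : L) + rk f) ∧ ∃ B, B.Nonempty ∧ (p x).val B = y) (by
      rintro x y ⟨⟨hfx, hs⟩, B, hB, rfl⟩
      have h1 : x ≤ (p x).val B := by
        conv_lhs => rw [← hx x hfx hs]
        exact (p x).le_val B
      have h2 := (hg x hfx hs).rk_val B
      rw [hx x hfx hs] at h2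
      have h3 : 0 < B.card := hB.card_pos
      refine lt_of_le_of_ne h1 ?_
      intro h
      rw [← h] at h2
      omega)
  let κ := {F : L // (f ≤ F ∧ 2 * rk F < rk (⊤ : L) + rk f) ∧ K F}
  refine HasPack.assemble (f := f) (ι := κ) (fun i => p i.1) (fun i => hg i.1 i.2.1.1 i.2.1.2)
    (fun i => ?_) ?_ ?_ ?_
  · rw [hx i.1 i.2.1.1 i.2.1.2]
    exact i.2.1.1
  · intro i
    have h1 := (hg i.1 i.2.1.1 i.2.1.2).rk_val Finset.univ
    rw [hx i.1 i.2.1.1 i.2.1.2, Finset.card_univ, Fintype.card_fin] at h1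
    change rk (⊤ : L) + rk f ≤ rk (p i.1).x + rk ((p i.1).val Finset.univ)
    rw [h1, hx i.1 i.2.1.1 i.2.1.2]
    have h2 := i.2.1
    have h3 := hn i.1 i.2.1.1 i.2.1.2
    omega
  · rintro ⟨F, ⟨hfF, hF⟩, hKF⟩ B ⟨F', ⟨hfF', hF'⟩, hKF'⟩ B' h
    change (p F).val B = (p F').val B' at h
    by_cases hFF : F = F'
    · subst hFF
      exact ⟨rfl, heq_of_eq ((hg F hfF hF).inj h)⟩
    · exfalso
      rcases B.eq_empty_or_nonempty with hB | hB
      · rcases B'.eq_empty_or_nonempty with hB' | hB'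
        · rw [hB, hB', Pc.val_empty, Pc.val_empty, hx F hfF hF, hx F' hfF' hF'] at h
          exact hFF h
        · rw [hB, Pc.val_empty, hx F hfF hF] at h
          exact (hK F).mp hKF ⟨F', hKF', ⟨hfF', hF'⟩, B', hB', h.symm⟩
      · rcases B'.eq_empty_or_nonempty with hB' | hB'
        · rw [hB', Pc.val_empty, hx F' hfF' hF'] at h
          exact (hK F').mp hKF' ⟨F, hKF, ⟨hfF, hF⟩, B, hB, h⟩
        · exact hd F F' hfF hfF' hF hF' hFF B B' hB hB' h
  · intro z hfz hz
    by_cases h : K z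
    · refine ⟨⟨z, ⟨hfz, hz⟩, h⟩, ∅, ?_⟩
      change (p z).val ∅ = z
      rw [Pc.val_empty, hx z hfz hz]
    · have h1 : ∃ x, K x ∧ ((f ≤ x ∧ 2 * rk x < rk (⊤ : L) + rk f) ∧
          ∃ B, B.Nonempty ∧ (p x).val B = z) := by
        by_contra hc
        exact h ((hK z).mpr hc)
      obtain ⟨x, hxK, hxs, B, _, hB⟩ := h1
      exact ⟨⟨x, hxs, hxK⟩, B, hB⟩

end Pool.Agent.Helper50.Sparse
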