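import Mathlib

/-!
# The numerical estimate
-/

set_option autoImplicit false
set_option linter.unusedSectionVars false

namespace Pool.Agent.Helper50.Sparse

open Finset

theorem pow_ratio {r : ℕ} (hr : 1 ≤ r) {n D : ℝ} (hD : 0 < D) (hn : 0 ≤ n)
    (h : 3 * r * n ≤ (3 * r + 1) * D) {j : ℕ} (hj : j ≤ r) : (n / D) ^ j ≤ 3 / 2 := by
  have hr0 : (0 : ℝ) < r := by exact_mod_cast hr
  set x : ℝ := 1 / (3 * r) with hx
  have hx0 : 0 < x := by positivity
  have hrx : (r : ℝ) * x = 1 / 3 := by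
    rw [hx]; field_simp
  have hr1 : (1 : ℝ) ≤ r := by exact_mod_cast hr
  have hx1 : x ≤ 1 / 3 := by
    have : x * 1 ≤ x * r := by nlinarith
    linarith
  have h1 : n / D ≤ 1 + x := by
    rw [div_le_iff₀ hD]
    have h2 : n ≤ (3 * r + 1) * D / (3 * r) := by
      rw [le_div_iff₀ (by positivity)]
      linarith
    have h3 : (3 * r + 1) * D / (3 * r) = (1 + x) * D := by
      rw [hx]; field_simp
    linarith
  have h2 : (n / D) ^ j ≤ (1 + x) ^ j := by
    apply pow_le_pow_left₀ (by positivity) h1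
  have h3 : (1 + x) ^ j ≤ (1 + x) ^ r := pow_le_pow_right₀ (by linarith) hj
  have h4 : (1 + x) ^ r * (1 - x) ^ r ≤ 1 := by
    rw [← mul_pow]
    apply pow_le_one₀
    · nlinarith
    · nlinarith
  have h5 : 2 / 3 ≤ (1 - x) ^ r := by
    have h6 := one_add_mul_le_pow (a := -x) (by linarith) r
    have h7 : 1 + (r : ℝ) * (-x) = 2 / 3 := by
      rw [mul_neg, hrx]; norm_num
    rw [h7] at h6
    have h8 : (1 + -x) = 1 - x := by ring
    rwa [h8] at h6
  have h6 : (1 + x) ^ r * (2 / 3) ≤ 1 := by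
    refine le_trans ?_ h4
    apply mul_le_mul_of_nonneg_left h5 (by positivity)
  linarith

theorem geom_le (k : ℕ) : ∑ i ∈ range k, (1 / 4 : ℝ) ^ i ≤ 2 := by
  have h : ∀ k : ℕ, ∑ i ∈ range k, (1 / 4 : ℝ) ^ i = 4 / 3 * (1 - (1 / 4 : ℝ) ^ k) := by
    intro k
    induction k with
    | zero => norm_num
    | succ k ih =>
      rw [Finset.sum_range_succ, ih]
      ring
  have h1 : (0 : ℝ) < (1 / 4 : ℝ) ^ k := by positivity
  linarith [h k]

/-- one term -/
theorem term_le {r k i : ℕ} (hr : 1 ≤ r) (hik : i < k) (hkr : i + k ≤ r)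
    {N g n D : ℝ} (hD : 0 < D) (hn : 0 ≤ n) (hN : 0 ≤ N) (hg : 0 ≤ g)
    (h2 : 3 * r * n ≤ (3 * r + 1) * D) (h3 : 3 * 4 ^ r * N * g ^ (k - i) ≤ D ^ (k - i)) :
    N * ((r - 2 * i).choose (k - i) * (g ^ (k - i) * n ^ (r - 2 * i - (k - i))) / D ^ (r - 2 * i)) ≤
      (1 / (2 * 2 ^ r)) * (1 / 4) ^ i := by
  have e1 : r - 2 * i = (k - i) + (r - 2 * i - (k - i)) := by omega
  have e2 : D ^ (r - 2 * i) = D ^ (k - i) * D ^ (r - 2 * i - (k - i)) := by
    conv_lhs => rw [e1, pow_add]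
  have e3 : N * ((r - 2 * i).choose (k - i) * (g ^ (k - i) * n ^ (r - 2 * i - (k - i))) /
      D ^ (r - 2 * i)) = ((r - 2 * i).choose (k - i) : ℝ) * (N * g ^ (k - i) / D ^ (k - i)) *
        (n / D) ^ (r - 2 * i - (k - i)) := by
    rw [e2, div_pow]
    field_simp
  rw [e3]
  have hDk : (0 : ℝ) < D ^ (k - i) := by positivity
  have b1 : N * g ^ (k - i) / D ^ (k - i) ≤ 1 / (3 * 4 ^ r) := by
    rw [div_le_div_iff₀ hDk (by positivity)]
    linarith
  have b2 : (n / D) ^ (r - 2 * i - (k - i)) ≤ 3 / 2 := pow_ratio hr hD hn h2 (by omega)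
  have b3 : ((r - 2 * i).choose (k - i) : ℝ) ≤ 2 ^ r * (1 / 4) ^ i := by
    have h4 : (r - 2 * i).choose (k - i) ≤ 2 ^ (r - 2 * i) := by
      exact Nat.choose_le_two_pow _ _
    have h5 : ((r - 2 * i).choose (k - i) : ℝ) ≤ 2 ^ (r - 2 * i) := by exact_mod_cast h4
    refine h5.trans (le_of_eq ?_)
    have h6 : (2 : ℝ) ^ r = 2 ^ (r - 2 * i) * 4 ^ i := by
      have h7 : r = (r - 2 * i) + 2 * i := by omega
      conv_lhs => rw [h7, pow_add, pow_mul]
      norm_num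
    rw [h6, mul_assoc, ← mul_pow]
    norm_num
  have c1 : (0 : ℝ) ≤ N * g ^ (k - i) / D ^ (k - i) := by positivity
  have c2 : (0 : ℝ) ≤ (n / D) ^ (r - 2 * i - (k - i)) := by positivity
  have c3 : (0 : ℝ) ≤ ((r - 2 * i).choose (k - i) : ℝ) := by positivity
  calc ((r - 2 * i).choose (k - i) : ℝ) * (N * g ^ (k - i) / D ^ (k - i)) *
        (n / D) ^ (r - 2 * i - (k - i))
      ≤ (2 ^ r * (1 / 4) ^ i) * (1 / (3 * 4 ^ r)) * (3 / 2) := by
        apply mul_le_mul _ b2 c2 (by positivity)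
        exact mul_le_mul b3 b1 c1 (by positivity)
    _ = (1 / (2 * 2 ^ r)) * (1 / 4) ^ i := by
        have h8 : (4 : ℝ) ^ r = 2 ^ r * 2 ^ r := by
          rw [← mul_pow]; norm_num
        rw [h8]
        field_simp

end Pool.Agent.Helper50.Sparse
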