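import Pool.Agent.Helper50.Sparse.Kernel
import Pool.Agent.Helper50.Sparse.Count
import Pool.Agent.Helper50.Sparse.Num
import Pool.Agent.Helper63.HM.Hall

/-!
# Sparse geometric lattices have Boolean packings: the load of an element
-/

set_option autoImplicit false
set_option linter.unusedSectionVars false

namespace Pool.Agent.Helper50.Sparse

open Pool.Agent.Helper28.BPack Finset

variable {L : Type} [Lattice L] [BoundedOrder L] [Fintype L] [IsUpperModularLattice L]
variable {ι : Type} [Fintype ι]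

/-- boxes: an element of small rank over `f` and an independent sequence over it -/
abbrev Bx (f : L) (c : ι → L) : Type :=
  Σ F : {F : L // f ≤ F ∧ 2 * rk F < rk (⊤ : L) + rk f},
    {a : Fin (rk (⊤ : L) + rk f - 2 * rk F.1) → ι //
      a ∈ good c (rk (⊤ : L) + rk f - 2 * rk F.1) F.1}

/-- the elements of a box above the bottom, without the top of `L` -/
def Use {f : L} {c : ι → L} (v : Bx f c) (q : L) : Prop :=
  q ≠ ⊤ ∧ ∃ S : Finset (Fin (rk (⊤ : L) + rk f - 2 * rk v.1.1)), S.Nonempty ∧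
    v.1.1 ⊔ S.sup (fun j => c (v.2.1 j)) = q

theorem bx_good {f : L} {c : ι → L} (hc : ∀ j, IsAtom (c j)) (v : Bx f c) :
    (⟨v.1.1, rk (⊤ : L) + rk f - 2 * rk v.1.1, fun j => c (v.2.1 j)⟩ : Pc L).Good := by
  have h := mem_good.mp v.2.2
  exact good_of_rk (p := ⟨v.1.1, rk (⊤ : L) + rk f - 2 * rk v.1.1, fun j => c (v.2.1 j)⟩)
    (fun j => hc (v.2.1 j)) h

theorem use_rk {f : L} {c : ι → L} (hc : ∀ j, IsAtom (c j)) {v : Bx f c} {q : L}
    (h : Use v q) : v.1.1 < q ∧ rk v.1.1 < rk q ∧ rk v.1.1 + rk q ≤ rk (⊤ : L) + rk f ∧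
      rk q < rk (⊤ : L) := by
  obtain ⟨hq, S, hS, hSq⟩ := h
  have h1 := (bx_good hc v).rk_val S
  have h2 : rk q = rk v.1.1 + S.card := by
    rw [← hSq]
    exact h1
  have h3 : 0 < S.card := hS.card_pos
  have h4 : S.card ≤ rk (⊤ : L) + rk f - 2 * rk v.1.1 := by
    have := Finset.card_le_univ S
    rwa [Fintype.card_fin] at this
  have h5 := v.1.2.2
  refine ⟨?_, by omega, by omega, rk_lt (lt_top_iff_ne_top.mpr hq)⟩
  refine lt_of_le_of_ne ?_ ?_
  · rw [← hSq]
    exact le_sup_left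
  · intro h
    rw [← h] at h2
    omega

/-- the number of used elements of a box -/
theorem card_use {f : L} {c : ι → L} {R : ℕ} (hR : rk (⊤ : L) = rk f + R) (v : Bx f c) :
    ({q : L | Use v q}.ncard : ℝ) ≤ 2 ^ R := by
  classical
  have h1 : {q : L | Use v q} ⊆
      ((univ : Finset (Finset (Fin (rk (⊤ : L) + rk f - 2 * rk v.1.1)))).image
      (fun S => v.1.1 ⊔ S.sup (fun j => c (v.2.1 j))) : Finset L) := by
    rintro q ⟨_, S, _, hS⟩
    rw [Finset.mem_coe, Finset.mem_image]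
    exact ⟨S, Finset.mem_univ _, hS⟩
  have h2 := Set.ncard_le_ncard h1 (Finset.finite_toSet _)
  rw [Set.ncard_coe_finset] at h2
  have h3 : {q : L | Use v q}.ncard ≤ 2 ^ R := by
    refine h2.trans (Finset.card_image_le.trans ?_)
    rw [Finset.card_univ, Fintype.card_finset, Fintype.card_fin]
    have h4 := rk_mono v.1.2.1
    exact Nat.pow_le_pow_right (by norm_num) (by omega)
  exact_mod_cast h3

/-- weights -/
noncomputable def wt {f : L} {c : ι → L} (D : ℕ) (v : Bx f c) : ℝ :=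
  1 / (D : ℝ) ^ (rk (⊤ : L) + rk f - 2 * rk v.1.1)

open Classical in
/-- the load of an element -/
theorem load_le {f : L} {c : ι → L} (hc : ∀ j, IsAtom (c j)) {R : ℕ}
    (hR : rk (⊤ : L) = rk f + R) (D : ℕ) (hD0 : 0 < D)
    (h2 : 3 * R * Fintype.card ι ≤ (3 * R + 1) * D)
    (h3 : ∀ (G : L) (i k : ℕ), f ≤ G → rk G = rk f + k → i < k → k < R → i + k ≤ R →
      3 * 4 ^ R * (univ.filter (fun F : L => f ≤ F ∧ F < G ∧ rk F = rk f + i)).card *
        (univ.filter (fun j : ι => c j ≤ G)).card ^ (k - i) ≤ D ^ (k - i))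
    (q : L) (hq : q ≠ ⊤) :
    ∑ u : Bx f c, (if Use u q then wt D u else 0) ≤ 1 / 2 ^ R := by
  by_cases hfq : f ≤ q
  swap
  · rw [Finset.sum_eq_zero]
    · positivity
    · intro u _
      rw [if_neg]
      intro hu
      exact hfq (u.1.2.1.trans (use_rk hc hu).1.le)
  obtain ⟨k, hk⟩ : ∃ k, rk q = rk f + k := ⟨rk q - rk f, by
    have := rk_mono hfq
    omega⟩
  have hkr : k < R := by
    have := rk_lt (lt_top_iff_ne_top.mpr hq)
    omega
  have hr1 : 1 ≤ R := by omega
  set n : ℝ := (Fintype.card ι : ℝ) with hn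
  set g : ℝ := ((univ.filter (fun j : ι => c j ≤ q)).card : ℝ) with hg
  have hDr : (0 : ℝ) < D := by exact_mod_cast hD0
  -- the bound for one bottom
  let b : ℕ → ℝ := fun i =>
    ((R - 2 * i).choose (k - i) * (g ^ (k - i) * n ^ (R - 2 * i - (k - i))) / (D : ℝ) ^ (R - 2 * i))
  have hb0 : ∀ i, 0 ≤ b i := fun i => by
    simp only [b]
    positivity
  have step1 : ∀ F : {F : L // f ≤ F ∧ 2 * rk F < rk (⊤ : L) + rk f},
      ∑ a : {a : Fin (rk (⊤ : L) + rk f - 2 * rk F.1) → ι //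
          a ∈ good c (rk (⊤ : L) + rk f - 2 * rk F.1) F.1},
        (if Use (⟨F, a⟩ : Bx f c) q then wt D (⟨F, a⟩ : Bx f c) else 0) ≤
      if f ≤ F.1 ∧ F.1 < q ∧ rk F.1 - rk f + k ≤ R then b (rk F.1 - rk f) else 0 := by
    intro F
    obtain ⟨i, hi⟩ : ∃ i, rk F.1 = rk f + i := ⟨rk F.1 - rk f, by
      have := rk_mono F.2.1
      omega⟩
    have hi' : rk F.1 - rk f = i := by omega
    have hlen : rk (⊤ : L) + rk f - 2 * rk F.1 = R - 2 * i := by omega
    by_cases hF : f ≤ F.1 ∧ F.1 < q ∧ rk F.1 - rk f + k ≤ R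
    · rw [if_pos hF]
      have e1 : ∑ a : {a : Fin (rk (⊤ : L) + rk f - 2 * rk F.1) → ι //
            a ∈ good c (rk (⊤ : L) + rk f - 2 * rk F.1) F.1},
          (if Use (⟨F, a⟩ : Bx f c) q then wt D (⟨F, a⟩ : Bx f c) else 0) ≤
          ∑ a : {a : Fin (rk (⊤ : L) + rk f - 2 * rk F.1) → ι //
            a ∈ good c (rk (⊤ : L) + rk f - 2 * rk F.1) F.1},
          (if (∃ S : Finset (Fin (rk (⊤ : L) + rk f - 2 * rk F.1)), S.Nonempty ∧
            F.1 ⊔ S.sup (fun j => c (a.1 j)) = q) then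
              1 / (D : ℝ) ^ (rk (⊤ : L) + rk f - 2 * rk F.1) else 0) := by
        apply Finset.sum_le_sum
        intro a _
        by_cases hu : Use (⟨F, a⟩ : Bx f c) q
        · rw [if_pos hu, if_pos hu.2]
          exact le_of_eq rfl
        · rw [if_neg hu]
          split_ifs
          · positivity
          · exact le_rfl
      refine e1.trans ?_
      have e2 : ∑ a : {a : Fin (rk (⊤ : L) + rk f - 2 * rk F.1) → ι //
            a ∈ good c (rk (⊤ : L) + rk f - 2 * rk F.1) F.1},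
          (if (∃ S : Finset (Fin (rk (⊤ : L) + rk f - 2 * rk F.1)), S.Nonempty ∧
            F.1 ⊔ S.sup (fun j => c (a.1 j)) = q) then
              1 / (D : ℝ) ^ (rk (⊤ : L) + rk f - 2 * rk F.1) else 0) =
          ∑ a ∈ good c (rk (⊤ : L) + rk f - 2 * rk F.1) F.1,
          (if (∃ S : Finset (Fin (rk (⊤ : L) + rk f - 2 * rk F.1)), S.Nonempty ∧
            F.1 ⊔ S.sup (fun j => c (a j)) = q) then
              1 / (D : ℝ) ^ (rk (⊤ : L) + rk f - 2 * rk F.1) else 0) := by
        exact Finset.sum_coe_sort (good c (rk (⊤ : L) + rk f - 2 * rk F.1) F.1)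
          (fun a : Fin (rk (⊤ : L) + rk f - 2 * rk F.1) → ι =>
            if (∃ S : Finset (Fin (rk (⊤ : L) + rk f - 2 * rk F.1)), S.Nonempty ∧
            F.1 ⊔ S.sup (fun j => c (a j)) = q) then
              1 / (D : ℝ) ^ (rk (⊤ : L) + rk f - 2 * rk F.1) else 0)
      rw [e2, ← Finset.sum_filter, Finset.sum_const, nsmul_eq_mul]
      have e3 := card_hit c hc (rk (⊤ : L) + rk f - 2 * rk F.1) F.1 q
      have e5 : rk q - rk F.1 = k - i := by omega
      rw [e5] at e3
      have e4 : (((good c (rk (⊤ : L) + rk f - 2 * rk F.1) F.1).filter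
          (fun a => ∃ S : Finset (Fin (rk (⊤ : L) + rk f - 2 * rk F.1)),
          S.Nonempty ∧ F.1 ⊔ S.sup (fun j => c (a j)) = q)).card : ℝ) ≤
          (rk (⊤ : L) + rk f - 2 * rk F.1).choose (k - i) * (g ^ (k - i) *
            n ^ (rk (⊤ : L) + rk f - 2 * rk F.1 - (k - i))) := by
        rw [hg, hn]
        exact_mod_cast e3
      simp only [b]
      rw [mul_one_div, hi']
      have e6 := div_le_div_of_nonneg_right e4
        (by positivity : (0 : ℝ) ≤ (D : ℝ) ^ (rk (⊤ : L) + rk f - 2 * rk F.1))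
      refine e6.trans (le_of_eq ?_)
      rw [hlen]
    · rw [if_neg hF]
      apply le_of_eq
      apply Finset.sum_eq_zero
      intro a _
      rw [if_neg]
      intro hu
      obtain ⟨h4, h5, h6, h7⟩ := use_rk hc hu
      refine hF ⟨F.2.1, h4, ?_⟩
      have h8 : rk F.1 + rk q ≤ rk (⊤ : L) + rk f := h6
      omega
  have step2 : ∑ u : Bx f c, (if Use u q then wt D u else 0) ≤
      ∑ F : {F : L // f ≤ F ∧ 2 * rk F < rk (⊤ : L) + rk f},
        if f ≤ F.1 ∧ F.1 < q ∧ rk F.1 - rk f + k ≤ R then b (rk F.1 - rk f) else 0 := by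
    rw [Fintype.sum_sigma]
    exact Finset.sum_le_sum (fun F _ => step1 F)
  have step3 : (∑ F : {F : L // f ≤ F ∧ 2 * rk F < rk (⊤ : L) + rk f},
        if f ≤ F.1 ∧ F.1 < q ∧ rk F.1 - rk f + k ≤ R then b (rk F.1 - rk f) else 0) ≤
      ∑ F : L, if f ≤ F ∧ F < q ∧ rk F - rk f + k ≤ R then b (rk F - rk f) else 0 := by
    have e1 : (∑ F : {F : L // f ≤ F ∧ 2 * rk F < rk (⊤ : L) + rk f},
        if f ≤ F.1 ∧ F.1 < q ∧ rk F.1 - rk f + k ≤ R then b (rk F.1 - rk f) else 0) =
        ∑ F ∈ univ.filter (fun F : L => f ≤ F ∧ 2 * rk F < rk (⊤ : L) + rk f),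
          if f ≤ F ∧ F < q ∧ rk F - rk f + k ≤ R then b (rk F - rk f) else 0 := by
      symm
      apply Finset.sum_subtype
      intro x
      simp
    rw [e1]
    apply Finset.sum_le_sum_of_subset_of_nonneg (Finset.subset_univ _)
    intro F _ _
    split_ifs
    · exact hb0 _
    · exact le_rfl
  have step4 : (∑ F : L, if f ≤ F ∧ F < q ∧ rk F - rk f + k ≤ R then b (rk F - rk f) else 0) =
      ∑ i ∈ range k, ∑ F ∈ univ.filter (fun F : L => f ≤ F ∧ F < q ∧ rk F = rk f + i),
        if i + k ≤ R then b i else 0 := by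
    have e1 : (∑ F : L, if f ≤ F ∧ F < q ∧ rk F - rk f + k ≤ R then b (rk F - rk f) else 0) =
        ∑ F ∈ univ.filter (fun F : L => f ≤ F ∧ F < q),
          if rk F - rk f + k ≤ R then b (rk F - rk f) else 0 := by
      rw [Finset.sum_filter]
      apply Finset.sum_congr rfl
      intro F _
      by_cases h4 : f ≤ F ∧ F < q
      · rw [if_pos h4]
        simp only [h4.1, h4.2, true_and]
      · rw [if_neg h4, if_neg (fun h => h4 ⟨h.1, h.2.1⟩)]
    rw [e1, ← Finset.sum_fiberwise_of_maps_to (g := fun F : L => rk F - rk f) (t := range k)]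
    · apply Finset.sum_congr rfl
      intro i _
      have e2 : (univ.filter (fun F : L => f ≤ F ∧ F < q)).filter
          (fun F : L => rk F - rk f = i) =
          univ.filter (fun F : L => f ≤ F ∧ F < q ∧ rk F = rk f + i) := by
        ext F
        simp only [Finset.mem_filter, Finset.mem_univ, true_and]
        constructor
        · rintro ⟨⟨h4, h5⟩, h6⟩
          have := rk_mono h4
          exact ⟨h4, h5, by omega⟩
        · rintro ⟨h4, h5, h6⟩
          exact ⟨⟨h4, h5⟩, by omega⟩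
      rw [e2]
      apply Finset.sum_congr rfl
      intro F hF
      rw [Finset.mem_filter] at hF
      have e3 : rk F - rk f = i := by omega
      rw [e3]
    · intro F hF
      rw [Finset.mem_filter] at hF
      rw [Finset.mem_range]
      have h4 := rk_lt hF.2.2
      have h5 := rk_mono hF.2.1
      omega
  have step5 : (∑ i ∈ range k,
        ∑ F ∈ univ.filter (fun F : L => f ≤ F ∧ F < q ∧ rk F = rk f + i),
        if i + k ≤ R then b i else 0) ≤ ∑ i ∈ range k, (1 / (2 * 2 ^ R)) * (1 / 4 : ℝ) ^ i := by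
    apply Finset.sum_le_sum
    intro i hi
    rw [Finset.mem_range] at hi
    rw [Finset.sum_const, nsmul_eq_mul]
    by_cases h4 : i + k ≤ R
    · rw [if_pos h4]
      apply term_le hr1 hi h4 hDr (by positivity) (by positivity) (by positivity)
      · rw [hn]
        exact_mod_cast h2
      · rw [hg]
        exact_mod_cast h3 q i k hfq hk hi hkr h4
    · rw [if_neg h4, mul_zero]
      positivity
  have step6 : ∑ i ∈ range k, (1 / (2 * 2 ^ R)) * (1 / 4 : ℝ) ^ i ≤ 1 / 2 ^ R := by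
    rw [← Finset.mul_sum]
    have h4 := geom_le k
    have h5 : (0 : ℝ) ≤ 1 / (2 * 2 ^ R) := by positivity
    calc (1 / (2 * 2 ^ R)) * ∑ i ∈ range k, (1 / 4 : ℝ) ^ i ≤ (1 / (2 * 2 ^ R)) * 2 :=
          mul_le_mul_of_nonneg_left h4 h5
      _ = 1 / 2 ^ R := by field_simp
  rw [step4] at step3
  exact step2.trans (step3.trans (step5.trans step6))

end Pool.Agent.Helper50.Sparse
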