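import Pool.Agent.Helper50.Sparse.Main

/-!
# Sparse geometric lattices have Boolean packings: the packing
-/

set_option autoImplicit false
set_option linter.unusedSectionVars false

namespace Pool.Agent.Helper50.Sparse

open Pool.Agent.Helper28.BPack Finset

variable {L : Type} [Lattice L] [BoundedOrder L] [Fintype L] [IsUpperModularLattice L]
variable {ι : Type} [Fintype ι]

theorem bot_of_top {f : L} {c : ι → L} (hc : ∀ j, IsAtom (c j)) (v : Bx f c)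
    (B : Finset (Fin (rk (⊤ : L) + rk f - 2 * rk v.1.1)))
    (hB : v.1.1 ⊔ B.sup (fun j => c (v.2.1 j)) = ⊤) : v.1.1 = f := by
  have h4 := (bx_good hc v).rk_val B
  have h5 : rk (⊤ : L) = rk v.1.1 + B.card := by
    rw [← h4]
    conv_lhs => rw [← hB]
    rfl
  have h6 : B.card ≤ rk (⊤ : L) + rk f - 2 * rk v.1.1 := by
    have := Finset.card_le_univ B
    rwa [Fintype.card_fin] at this
  have h7 := v.1.2
  have h8 : rk v.1.1 ≤ rk f := by omega
  exact (eq_of_le_of_rk h7.1 h8).symm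

theorem box_ne {f : L} {c : ι → L} (hc : ∀ j, IsAtom (c j)) {v v' : Bx f c}
    (hne : v.1.1 ≠ v'.1.1) (hu : ∀ q, ¬ (Use v q ∧ Use v' q))
    (B : Finset (Fin (rk (⊤ : L) + rk f - 2 * rk v.1.1)))
    (B' : Finset (Fin (rk (⊤ : L) + rk f - 2 * rk v'.1.1))) (hB : B.Nonempty)
    (hB' : B'.Nonempty) :
    (⟨v.1.1, rk (⊤ : L) + rk f - 2 * rk v.1.1, fun j => c (v.2.1 j)⟩ : Pc L).val B ≠
      (⟨v'.1.1, rk (⊤ : L) + rk f - 2 * rk v'.1.1, fun j => c (v'.2.1 j)⟩ : Pc L).val B' := by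
  intro h
  have h' : v.1.1 ⊔ B.sup (fun j => c (v.2.1 j)) = v'.1.1 ⊔ B'.sup (fun j => c (v'.2.1 j)) := h
  by_cases hq : v.1.1 ⊔ B.sup (fun j => c (v.2.1 j)) = ⊤
  · exact hne ((bot_of_top hc v B hq).trans (bot_of_top hc v' B' (h' ▸ hq)).symm)
  · exact hu _ ⟨⟨hq, B, hB, rfl⟩, ⟨hq, B', hB', h'.symm⟩⟩

open Classical in
theorem hasPack_sparse {f : L} {c : ι → L} (hc : ∀ j, IsAtom (c j)) {R : ℕ}
    (hR : rk (⊤ : L) = rk f + R) (D : ℕ) (hD0 : 0 < D)
    (hD : ∀ x : L, f ≤ x → x ≠ ⊤ → D ≤ (univ.filter (fun j : ι => ¬ c j ≤ x)).card)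
    (h2 : 3 * R * Fintype.card ι ≤ (3 * R + 1) * D)
    (h3 : ∀ (G : L) (i k : ℕ), f ≤ G → rk G = rk f + k → i < k → k < R → i + k ≤ R →
      3 * 4 ^ R * (univ.filter (fun F : L => f ≤ F ∧ F < G ∧ rk F = rk f + i)).card *
        (univ.filter (fun j : ι => c j ≤ G)).card ^ (k - i) ≤ D ^ (k - i)) :
    HasPack f := by
  have hDr : (0 : ℝ) < D := by exact_mod_cast hD0
  have hw0 : ∀ v : Bx f c, 0 ≤ wt D v := fun v => by
    unfold wt
    positivity
  have hload : ∀ q : L, q ≠ ⊤ → ∑ᶠ u ∈ {u : Bx f c | Use u q}, wt D u ≤ 1 / 2 ^ R := by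
    intro q hq
    have h4 := load_le hc hR D hD0 h2 h3 q hq
    rw [finsum_mem_def, finsum_eq_sum_of_fintype]
    refine le_trans (le_of_eq ?_) h4
    apply Finset.sum_congr rfl
    intro u _
    rw [Set.indicator_apply]
    rfl
  obtain ⟨g, hg1, hg2, hg3⟩ := Pool.Agent.Helper63.HM.rainbow
    (V := Bx f c) (Q := L) (X := {F : L // f ≤ F ∧ 2 * rk F < rk (⊤ : L) + rk f})
    Use (fun v => v.1) (wt D) hw0
    (by
      intro v _
      have h4 : ∀ q ∈ {q | Use v q}, ∑ᶠ u ∈ {u : Bx f c | Use u q}, wt D u ≤ 1 / 2 ^ R :=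
        fun q hq => hload q hq.1
      rw [finsum_mem_eq_finite_toFinset_sum _ (Set.toFinite {q | Use v q})]
      have h5 := Finset.sum_le_card_nsmul (Set.toFinite {q | Use v q}).toFinset
        (fun q => ∑ᶠ u ∈ {u : Bx f c | Use u q}, wt D u) (1 / 2 ^ R) (by
          intro q hq
          exact h4 q ((Set.Finite.mem_toFinset _).mp hq))
      refine h5.trans ?_
      rw [← Set.ncard_eq_toFinset_card, nsmul_eq_mul]
      have h6 := card_use hR v
      have h7 : (0 : ℝ) < 2 ^ R := by positivity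
      rw [mul_one_div, div_le_one h7]
      exact h6)
    (by
      intro x
      have h4 : {v : Bx f c | v.1 = x} = Set.range (fun a => (⟨x, a⟩ : Bx f c)) := by
        ext v
        constructor
        · intro h
          have h' : v.1 = x := h
          subst h'
          exact ⟨v.2, rfl⟩
        · rintro ⟨a, rfl⟩
          rfl
      change 1 ≤ ∑ᶠ v ∈ {v : Bx f c | v.1 = x}, wt D v
      rw [h4, finsum_mem_range (fun a b h => by
        have := Sigma.mk.inj_iff.mp h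
        exact eq_of_heq this.2), finsum_eq_sum_of_fintype]
      have h5 : ∀ a : {a : Fin (rk (⊤ : L) + rk f - 2 * rk x.1) → ι //
          a ∈ good c (rk (⊤ : L) + rk f - 2 * rk x.1) x.1},
          wt D (⟨x, a⟩ : Bx f c) = 1 / (D : ℝ) ^ (rk (⊤ : L) + rk f - 2 * rk x.1) := fun a => rfl
      rw [Finset.sum_congr rfl (fun a _ => h5 a), Finset.sum_const, nsmul_eq_mul, Finset.card_univ,
        Fintype.card_coe, mul_one_div, one_le_div (by positivity)]
      have h6 := card_good c hc D f hD (rk (⊤ : L) + rk f - 2 * rk x.1) x.1 x.2.1 (by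
        have h7 := x.2.2
        have h8 := rk_mono x.2.1
        omega)
      exact_mod_cast h6)
  let p : L → Pc L := fun F =>
    if hF : f ≤ F ∧ 2 * rk F < rk (⊤ : L) + rk f then
      ⟨(g ⟨F, hF⟩).1.1, rk (⊤ : L) + rk f - 2 * rk (g ⟨F, hF⟩).1.1,
        fun j => c ((g ⟨F, hF⟩).2.1 j)⟩
    else single F
  have hp : ∀ F (hF : f ≤ F ∧ 2 * rk F < rk (⊤ : L) + rk f), p F =
      ⟨(g ⟨F, hF⟩).1.1, rk (⊤ : L) + rk f - 2 * rk (g ⟨F, hF⟩).1.1,
        fun j => c ((g ⟨F, hF⟩).2.1 j)⟩ := fun F hF => dif_pos hF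
  have hbot : ∀ F (hF : f ≤ F ∧ 2 * rk F < rk (⊤ : L) + rk f), (g ⟨F, hF⟩).1.1 = F :=
    fun F hF => by
      have := hg1 ⟨F, hF⟩
      exact congrArg Subtype.val this
  apply hasPack_of_family f p
  · intro F hfF hF
    rw [hp F ⟨hfF, hF⟩]
    exact bx_good hc _
  · intro F hfF hF
    rw [hp F ⟨hfF, hF⟩]
    exact hbot F ⟨hfF, hF⟩
  · intro F hfF hF
    rw [hp F ⟨hfF, hF⟩]
    change rk (⊤ : L) + rk f - 2 * rk (g ⟨F, ⟨hfF, hF⟩⟩).1.1 = _
    rw [hbot F ⟨hfF, hF⟩]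
  · intro F F' hfF hfF' hF hF' hne
    have h4 : (⟨F, ⟨hfF, hF⟩⟩ : {F : L // f ≤ F ∧ 2 * rk F < rk (⊤ : L) + rk f}) ≠
        ⟨F', ⟨hfF', hF'⟩⟩ := by
      intro h5
      exact hne (congrArg Subtype.val h5)
    have h5 : (g ⟨F, ⟨hfF, hF⟩⟩).1.1 ≠ (g ⟨F', ⟨hfF', hF'⟩⟩).1.1 := by
      rw [hbot F ⟨hfF, hF⟩, hbot F' ⟨hfF', hF'⟩]
      exact hne
    rw [hp F ⟨hfF, hF⟩, hp F' ⟨hfF', hF'⟩]
    exact box_ne hc h5 (hg3 _ _ h4)

end Pool.Agent.Helper50.Sparse
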