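import Pool.Agent.Helper50.Sparse.Pack

/-!
# Intervals with many points and few points below each coatom
-/

set_option autoImplicit false
set_option linter.unusedSectionVars false

namespace Pool.Agent.Helper50.Sparse

open Pool.Agent.Helper28.BPack Finset

variable {L : Type} [Lattice L] [BoundedOrder L] [Fintype L] [IsUpperModularLattice L]

/-- every element above `f` is the join of `f` and a sequence of points over `f` -/
theorem exists_seqF (hat : ∀ x : L, ∃ s : Finset L, (∀ a ∈ s, IsAtom a) ∧ s.sup id = x)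
    {f F : L} (hfF : f ≤ F) {i : ℕ} (hi : rk F = rk f + i) :
    ∃ b : Fin i → L, (∀ j, f ⋖ b j ∧ b j ≤ F) ∧ f ⊔ univ.sup b = F := by
  classical
  obtain ⟨s, hs, hsF⟩ := hat F
  obtain ⟨C, hCs, hC1, hC2⟩ := exists_basis f s hs
  rw [hsF, sup_eq_right.mpr hfF] at hC1 hC2
  have hCi : C.card = i := by omega
  let e : Fin i ≃ C := (finCongr hCi.symm).trans C.equivFin.symm
  have hCF : ∀ a ∈ C, a ≤ F := fun a ha => by
    rw [← hC1]
    exact (Finset.le_sup (f := id) ha).trans le_sup_right
  have hnot : ∀ a ∈ C, ¬ a ≤ f := by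
    intro a ha haf
    have h1 : f ⊔ (C.erase a).sup id = F := by
      rw [← hC1]
      conv_rhs => rw [← Finset.insert_erase ha, Finset.sup_insert, id, ← sup_assoc,
        sup_eq_left.mpr haf]
    have h2 := rk_sup_finset_le f (C.erase a) id (fun k hk => hs k (hCs (Finset.mem_of_mem_erase hk)))
    rw [h1, Finset.card_erase_of_mem ha] at h2
    have h3 : 0 < C.card := Finset.card_pos.mpr ⟨a, ha⟩
    omega
  refine ⟨fun j => f ⊔ (e j).1, ?_, ?_⟩
  · intro j
    exact ⟨covBy_sup_atom (hs _ (hCs (e j).2)) (hnot _ (e j).2), sup_le hfF (hCF _ (e j).2)⟩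
  · apply le_antisymm
    · apply sup_le hfF
      apply Finset.sup_le
      intro j _
      exact sup_le hfF (hCF _ (e j).2)
    · conv_lhs => rw [← hC1]
      apply sup_le le_sup_left
      apply Finset.sup_le
      intro a ha
      have h1 : (e (e.symm ⟨a, ha⟩)).1 = a := by rw [Equiv.apply_symm_apply]
      change a ≤ _
      conv_lhs => rw [← h1]
      have h2 : (e (e.symm ⟨a, ha⟩)).1 ≤ f ⊔ (e (e.symm ⟨a, ha⟩)).1 := le_sup_right
      refine h2.trans (le_trans ?_ le_sup_right)
      exact Finset.le_sup (f := fun j => f ⊔ (e j).1) (Finset.mem_univ (e.symm ⟨a, ha⟩))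

open Classical in
/-- the number of elements of given rank below `G` -/
theorem card_rankF_le (hat : ∀ x : L, ∃ s : Finset L, (∀ a ∈ s, IsAtom a) ∧ s.sup id = x)
    (f G : L) (i : ℕ) :
    (univ.filter (fun F : L => f ≤ F ∧ F < G ∧ rk F = rk f + i)).card ≤
      (univ.filter (fun j : {u : L // f ⋖ u} => j.1 ≤ G)).card ^ i := by
  let T : Finset (Fin i → {u : L // f ⋖ u}) :=
    Fintype.piFinset (fun _ => univ.filter (fun j : {u : L // f ⋖ u} => j.1 ≤ G))
  have hT : T.card = (univ.filter (fun j : {u : L // f ⋖ u} => j.1 ≤ G)).card ^ i := by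
    rw [Fintype.card_piFinset, Finset.prod_const, Finset.card_univ, Fintype.card_fin]
  rw [← hT]
  have hsub : (univ.filter (fun F : L => f ≤ F ∧ F < G ∧ rk F = rk f + i)) ⊆
      T.image (fun b => f ⊔ univ.sup (fun j => (b j).1)) := by
    intro F hF
    rw [Finset.mem_filter] at hF
    obtain ⟨_, hfF, hFG, hFi⟩ := hF
    obtain ⟨b, hb1, hb2⟩ := exists_seqF hat hfF hFi
    rw [Finset.mem_image]
    refine ⟨fun j => ⟨b j, (hb1 j).1⟩, ?_, hb2⟩
    rw [Fintype.mem_piFinset]
    intro j
    rw [Finset.mem_filter]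
    exact ⟨Finset.mem_univ _, (hb1 j).2.trans hFG.le⟩
  exact (Finset.card_le_card hsub).trans Finset.card_image_le

open Classical in
/-- **Uniform version over a base.** -/
theorem hasPack_uniformF
    (hat : ∀ x : L, ∃ s : Finset L, (∀ a ∈ s, IsAtom a) ∧ s.sup id = x) {f : L} {R : ℕ}
    (hR : rk (⊤ : L) = rk f + R) (t : ℕ)
    (ht : ∀ x : L, f ≤ x → x ≠ ⊤ →
      (univ.filter (fun j : {u : L // f ⋖ u} => j.1 ≤ x)).card ≤ t)
    (hn : t + 3 * 4 ^ R * t ^ ((R + 1) / 2) ≤ Fintype.card {u : L // f ⋖ u}) : HasPack f := by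
  set n := Fintype.card {u : L // f ⋖ u} with hnn
  -- the rank is positive
  have hr1 : 1 ≤ R := by
    by_contra hc
    have hr0 : R = 0 := by omega
    rw [hr0] at hn hR
    norm_num at hn
    have h1 : 0 < n := by omega
    rw [hnn, Fintype.card_pos_iff] at h1
    obtain ⟨a⟩ := h1
    have h2 : f < ⊤ := lt_of_lt_of_le a.2.lt le_top
    have h3 := rk_lt h2
    omega
  have hbt : f ≠ ⊤ := by
    intro h
    rw [h] at hR
    omega
  have hpt : ∀ G : L, f ≤ G → G ≠ f → ∃ j : {u : L // f ⋖ u}, j.1 ≤ G := by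
    intro G hfG hG
    obtain ⟨b, hb1, hb2, hb3⟩ := exists_atom hat (x := f) (y := G)
      (fun h => hG (le_antisymm h hfG))
    exact ⟨⟨f ⊔ b, covBy_sup_atom hb1 hb3⟩, sup_le hfG hb2⟩
  have hpos : 0 < n := by
    obtain ⟨j, _⟩ := hpt ⊤ le_top (fun h => hbt h.symm)
    rw [hnn, Fintype.card_pos_iff]
    exact ⟨j⟩
  -- atoms representing the points
  have hrep : ∀ j : {u : L // f ⋖ u}, ∃ b, IsAtom b ∧ f ⊔ b = j.1 := fun j =>
    exists_atom_cov hat j.2
  choose c hc hcj using hrep
  have hcle : ∀ (x : L), f ≤ x → ∀ j : {u : L // f ⋖ u}, c j ≤ x ↔ j.1 ≤ x := by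
    intro x hfx j
    rw [← hcj j]
    constructor
    · intro h
      exact sup_le hfx h
    · intro h
      exact le_sup_right.trans h
  set s := (R + 1) / 2 with hs
  have hs1 : 1 ≤ s := by omega
  have h4r : R ≤ 4 ^ R := (Nat.lt_pow_self (by norm_num)).le
  have htn : t ≤ n := by
    have := Nat.le_add_right t (3 * 4 ^ R * t ^ s)
    omega
  have hDs : 3 * 4 ^ R * t ^ s ≤ n - t := by omega
  have hD0 : 0 < n - t := by
    rcases Nat.eq_zero_or_pos t with h0 | h0
    · omega
    · have h1 : 0 < 3 * 4 ^ R * t ^ s := by positivity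
      omega
  refine hasPack_sparse (f := f) (c := c) hc (R := R) hR (n - t) hD0 ?_ ?_ ?_
  · intro x hfx hx
    have h1 := ht x hfx hx
    have h2 := Finset.card_filter_add_card_filter_not (s := (univ : Finset {u : L // f ⋖ u}))
      (fun j : {u : L // f ⋖ u} => j.1 ≤ x)
    rw [Finset.card_univ, ← hnn] at h2
    have h3 : (univ.filter (fun j : {u : L // f ⋖ u} => ¬ c j ≤ x)) =
        (univ.filter (fun j : {u : L // f ⋖ u} => ¬ j.1 ≤ x)) := by
      apply Finset.filter_congr
      intro j _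
      rw [hcle x hfx j]
    rw [h3]
    omega
  · have h1 : t ≤ t ^ s := Nat.le_self_pow (by omega) t
    have h2 : 3 * R * t ≤ 3 * 4 ^ R * t ^ s := by
      apply Nat.mul_le_mul _ h1
      exact Nat.mul_le_mul_left 3 h4r
    have h3 : (3 * R + 1) * t ≤ n := by
      have h5 : (3 * R + 1) * t = 3 * R * t + t := by ring
      omega
    have h4 : (3 * R + 1) * (n - t) = (3 * R + 1) * n - (3 * R + 1) * t := Nat.mul_sub _ _ _
    have h6 : (3 * R + 1) * n = 3 * R * n + n := by ring
    rw [h4, h6, ← hnn]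
    omega
  · intro G i k hfG hk hik hkr hik2
    have hGt : G ≠ ⊤ := by
      intro h
      rw [h] at hk
      omega
    set g := (univ.filter (fun j : {u : L // f ⋖ u} => j.1 ≤ G)).card with hg
    have hgc : (univ.filter (fun j : {u : L // f ⋖ u} => c j ≤ G)).card = g := by
      rw [hg]
      congr 1
      apply Finset.filter_congr
      intro j _
      rw [hcle G hfG j]
    have hgt : g ≤ t := ht G hfG hGt
    have hg1 : 1 ≤ g := by
      obtain ⟨j, hj⟩ := hpt G hfG (fun h => by
        rw [h] at hk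
        omega)
      apply Finset.card_pos.mpr
      exact ⟨j, by rw [Finset.mem_filter]; exact ⟨Finset.mem_univ _, hj⟩⟩
    have ht1 : 1 ≤ t := hg1.trans hgt
    have hN := card_rankF_le hat f G i
    rw [← hg] at hN
    obtain ⟨d, hd⟩ : ∃ d, k = i + d := ⟨k - i, by omega⟩
    have hd1 : 1 ≤ d := by omega
    have hkd : k - i = d := by omega
    rw [hkd, hgc]
    have hksd : k ≤ s * d := by
      by_cases h1 : d = 1
      · subst h1
        omega
      · have hd2 : 2 ≤ d := by omega
        have hr2 : 2 ≤ R := by omega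
        have h2 : R ≤ 2 * s := by omega
        have h3 : R * d ≤ 2 * s * d := Nat.mul_le_mul_right d h2
        obtain ⟨d', rfl⟩ : ∃ d', d = d' + 2 := ⟨d - 2, by omega⟩
        obtain ⟨r', hr'⟩ : ∃ r', R = r' + 2 := ⟨R - 2, by omega⟩
        have h4 : R + (d' + 2) ≤ R * (d' + 2) := by
          rw [hr']
          nlinarith [Nat.zero_le (r' * d')]
        have h5 : 2 * (s * (d' + 2)) = 2 * s * (d' + 2) := by ring
        omega
    calc 3 * 4 ^ R * (univ.filter (fun F : L => f ≤ F ∧ F < G ∧ rk F = rk f + i)).card * g ^ d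
        ≤ 3 * 4 ^ R * g ^ i * g ^ d := by
          apply Nat.mul_le_mul_right
          exact Nat.mul_le_mul_left _ hN
      _ = 3 * 4 ^ R * g ^ k := by rw [hd, pow_add, mul_assoc]
      _ ≤ 3 * 4 ^ R * t ^ k := Nat.mul_le_mul_left _ (Nat.pow_le_pow_left hgt k)
      _ ≤ 3 * 4 ^ R * t ^ (s * d) := Nat.mul_le_mul_left _ (Nat.pow_le_pow_right ht1 hksd)
      _ ≤ (3 * 4 ^ R) ^ d * t ^ (s * d) := by
          apply Nat.mul_le_mul_right
          exact Nat.le_self_pow (by omega) _
      _ = (3 * 4 ^ R * t ^ s) ^ d := by rw [pow_mul, ← mul_pow]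
      _ ≤ (n - t) ^ d := Nat.pow_le_pow_left hDs d

end Pool.Agent.Helper50.Sparse
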